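import Pool.Agent.N963.KL.Stm

/-!
Project KL, task DS: the sum of the majorants.
-/

set_option autoImplicit false

namespace Pool.Agent.N591.KL

open Pool.Agent.N963.KL

theorem term_le (κ' : ℝ) (_h1 : 1 / 2 < κ') (h2 : κ' < 1) (L y : ℝ) (hL : 1 ≤ L) (hy : y ≤ 1)
    (n : ℕ) : ((n : ℝ) + 1) ^ (-(1 / 2) + y) * bet κ' L (n + 1) ≤
      ((n : ℝ) + 1) ^ (-1 - (κ' - 1 / 2) / 2) * Real.exp (L * max (y - (κ' - 1 / 2) / 2) 0) := by
  have hx : (0 : ℝ) < (n : ℝ) + 1 := by positivity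
  have hlog : 0 ≤ Real.log ((n : ℝ) + 1) := Real.log_nonneg (by linarith [Nat.cast_nonneg (α := ℝ) n])
  have hm : y - (κ' - 1 / 2) / 2 ≤ max (y - (κ' - 1 / 2) / 2) 0 := le_max_left _ _
  have hm0 : 0 ≤ max (y - (κ' - 1 / 2) / 2) 0 := le_max_right _ _
  unfold bet
  push_cast
  split_ifs with h
  · have e1 : ((n : ℝ) + 1) ^ (-(1 / 2) + y) * ((n : ℝ) + 1) ^ (-κ') =
        ((n : ℝ) + 1) ^ (-1 - (κ' - 1 / 2) / 2) * ((n : ℝ) + 1) ^ (y - (κ' - 1 / 2) / 2) := by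
      rw [← Real.rpow_add hx, ← Real.rpow_add hx]
      congr 1
      ring
    rw [e1]
    refine mul_le_mul_of_nonneg_left ?_ (Real.rpow_nonneg hx.le _)
    rw [Real.rpow_def_of_pos hx, Real.exp_le_exp]
    calc Real.log ((n : ℝ) + 1) * (y - (κ' - 1 / 2) / 2)
        ≤ Real.log ((n : ℝ) + 1) * max (y - (κ' - 1 / 2) / 2) 0 :=
          mul_le_mul_of_nonneg_left hm hlog
      _ ≤ L * max (y - (κ' - 1 / 2) / 2) 0 := mul_le_mul_of_nonneg_right h hm0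
  · push Not at h
    have e1 : ((n : ℝ) + 1) ^ (-(1 / 2) + y) * (((n : ℝ) + 1) ^ (-3 : ℝ) *
          Real.exp ((3 - κ') * L)) =
        ((n : ℝ) + 1) ^ (-1 - (κ' - 1 / 2) / 2) *
          (((n : ℝ) + 1) ^ (-(5 / 2) + y + (κ' - 1 / 2) / 2) * Real.exp ((3 - κ') * L)) := by
      rw [← mul_assoc, ← mul_assoc, ← Real.rpow_add hx, ← Real.rpow_add hx]
      congr 2
      ring
    rw [e1]
    refine mul_le_mul_of_nonneg_left ?_ (Real.rpow_nonneg hx.le _)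
    rw [Real.rpow_def_of_pos hx, ← Real.exp_add, Real.exp_le_exp]
    have h3 : -(5 / 2) + y + (κ' - 1 / 2) / 2 ≤ 0 := by linarith
    have h4 : Real.log ((n : ℝ) + 1) * (-(5 / 2) + y + (κ' - 1 / 2) / 2) ≤
        L * (-(5 / 2) + y + (κ' - 1 / 2) / 2) := mul_le_mul_of_nonpos_right h.le h3
    have h5 : L * (y - (κ' - 1 / 2) / 2) ≤ L * max (y - (κ' - 1 / 2) / 2) 0 :=
      mul_le_mul_of_nonneg_left hm (by linarith)
    nlinarith

theorem ds : S_DS := by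
  intro κ' h1 h2
  have hs0 : Summable fun n : ℕ => ((n : ℝ)) ^ (-1 - (κ' - 1 / 2) / 2) :=
    Real.summable_nat_rpow.2 (by linarith)
  have hs : Summable fun n : ℕ => ((n : ℝ) + 1) ^ (-1 - (κ' - 1 / 2) / 2) := by
    have := (summable_nat_add_iff 1).2 hs0
    simpa using this
  refine ⟨max 1 (∑' n : ℕ, ((n : ℝ) + 1) ^ (-1 - (κ' - 1 / 2) / 2)), le_max_left _ _, ?_⟩
  intro L y hL _ hy
  have hle := term_le κ' h1 h2 L y hL hy
  have hnn : ∀ n : ℕ, 0 ≤ ((n : ℝ) + 1) ^ (-(1 / 2) + y) * bet κ' L (n + 1) := by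
    intro n
    refine mul_nonneg (Real.rpow_nonneg (by positivity) _) ?_
    unfold bet
    split_ifs
    · positivity
    · positivity
  have hs2 := hs.mul_right (Real.exp (L * max (y - (κ' - 1 / 2) / 2) 0))
  have hs3 : Summable fun n : ℕ => ((n : ℝ) + 1) ^ (-(1 / 2) + y) * bet κ' L (n + 1) :=
    Summable.of_nonneg_of_le hnn hle hs2
  refine ⟨hs3, ?_⟩
  calc ∑' n : ℕ, ((n : ℝ) + 1) ^ (-(1 / 2) + y) * bet κ' L (n + 1)
      ≤ ∑' n : ℕ, ((n : ℝ) + 1) ^ (-1 - (κ' - 1 / 2) / 2) *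
          Real.exp (L * max (y - (κ' - 1 / 2) / 2) 0) := hs3.tsum_le_tsum hle hs2
    _ = (∑' n : ℕ, ((n : ℝ) + 1) ^ (-1 - (κ' - 1 / 2) / 2)) *
          Real.exp (L * max (y - (κ' - 1 / 2) / 2) 0) := tsum_mul_right
    _ ≤ _ := mul_le_mul_of_nonneg_right (le_max_right _ _) (Real.exp_pos _).le

end Pool.Agent.N591.KL
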